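import Pool.Agent.Q98.JF.Fin

/-!
# MP_59b15d_al: finite-index subgroups of `Mod` containing a term of the Johnson filtration

For a characteristic subgroup `K` of finite index of the surface group `π`, the subgroups of finite
index of `Aut(π)` or `Out(π)` which contain the kernel of the action on `π / γ_c(K)`.
-/

set_option autoImplicit false

namespace Pool.Agent.Results.MP_59b15d_al.JohnsonFiltration

open Pool.Agent.Q98.CG Pool.Agent.Q98.JF

/-- the fundamental group of the closed orientable surface of genus `g` -/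
abbrev Surface (g : ℕ) : Type := PresentedGroup
  ({(List.ofFn (fun i : Fin g =>
      FreeGroup.of (Sum.inl i : Fin g ⊕ Fin g) *
      FreeGroup.of (Sum.inr i : Fin g ⊕ Fin g) *
      (FreeGroup.of (Sum.inl i : Fin g ⊕ Fin g))⁻¹ *
      (FreeGroup.of (Sum.inr i : Fin g ⊕ Fin g))⁻¹)).prod} :
    Set (FreeGroup (Fin g ⊕ Fin g)))

lemma gen_top (g : ℕ) : Subgroup.closure (Set.range fun i : Fin (g + g) =>
    (PresentedGroup.of (finSumFinEquiv.symm i) : Surface g)) = ⊤ := by
  rw [← PresentedGroup.closure_range_of]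
  congr 1
  exact finSumFinEquiv.symm.surjective.range_comp
    (fun i => (PresentedGroup.of i : Surface g))

/-- `K.lowerCentralSeries c` is `γ_(c+1)(K)` (`K` for `c = 0`, `[K, K]` for `c = 1`) and `AK L` the
group of automorphisms acting trivially on `π / L`, where `π = Surface g`. -/
theorem result (g : ℕ) :
    (∀ N : Subgroup (MulAut (Surface g)), Inn (Surface g) ≤ N →
      (Cong N ↔ IsCong (Surface g) N) ∧
      ∀ L : Subgroup (Surface g), L.Characteristic →
        (AK L ≤ N ↔ ∀ ψ : MulAut (Surface g),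
          (∃ h : Surface g, ∀ x : Surface g, ψ x * (h * x * h⁻¹)⁻¹ ∈ L) → ψ ∈ N)) ∧
    ∀ K : Subgroup (Surface g), K.Characteristic → K.FiniteIndex →
      (∀ (c : ℕ) (N : Subgroup (MulAut (Surface g))), N.FiniteIndex →
        AK (K.lowerCentralSeries (c + 1)) ≤ N →
        ∃ L : Subgroup (Surface g), L.Characteristic ∧ L.FiniteIndex ∧
          AK L ⊓ AK (K.lowerCentralSeries 1) ≤ N) ∧
      ((∀ N : Subgroup (MulAut (Surface g)), N.FiniteIndex →
          AK (K.lowerCentralSeries 1) ≤ N → Cong N) →
        ∀ (c : ℕ) (N : Subgroup (MulAut (Surface g))), N.FiniteIndex →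
          AK (K.lowerCentralSeries (c + 1)) ≤ N → Cong N) :=
  ⟨fun _ hI => ⟨cong_iff hI, fun _ hL => out_iff hL hI⟩, fun _ h1 h2 =>
    ⟨fun c => filt (gen_top g) h1 h2 c, fun hb => cong_of (gen_top g) h1 h2 hb⟩⟩

end Pool.Agent.Results.MP_59b15d_al.JohnsonFiltration
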