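import Pool.Agent.Q98.CG.All
import Pool.Agent.Q98.CG.Surf

/-!
# MP_59b15d_al: one noncongruence subgroup of a mapping class group forces superpolynomially many

`s(x)`, `c(x)` and `u(x)` are the numbers of all subgroups, of congruence and of noncongruence
subgroups of index at most `x` of the extended mapping class group `Out(π_1(S_g))`.
-/

set_option autoImplicit false

namespace Pool.Agent.Results.MP_59b15d_al.NoncongruenceGrowth

open Pool.Agent.Q98.CG

/-- the fundamental group of the closed orientable surface of genus `g` -/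
abbrev Surface (g : ℕ) : Type := PresentedGroup
  ({(List.ofFn (fun i : Fin g =>
      FreeGroup.of (Sum.inl i : Fin g ⊕ Fin g) *
      FreeGroup.of (Sum.inr i : Fin g ⊕ Fin g) *
      (FreeGroup.of (Sum.inl i : Fin g ⊕ Fin g))⁻¹ *
      (FreeGroup.of (Sum.inr i : Fin g ⊕ Fin g))⁻¹)).prod} :
    Set (FreeGroup (Fin g ⊕ Fin g)))

/-- Let `g ≥ 1` and `Mod = Out(π_1(S_g))`. (1) For every `A`, `x ^ A ≤ c(x)` for all large `x`.
(2) If `Mod` has a noncongruence subgroup of index `d`, then `s(x) ≤ u(d x) (d x) ^ ⌊log₂ d⌋` for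
all `x`, and for every `A`, `x ^ A ≤ u(x)` for all large `x`. (3) The congruence subgroup property
for `Mod` (as in Q1) holds if and only if there is an `A` with `u(x) < x ^ A` for arbitrarily
large `x`. -/
theorem result (g : ℕ) (hg : 1 ≤ g) :
    (∀ A : ℕ, ∃ x₀ : ℕ, ∀ x : ℕ, x₀ ≤ x → ((x ^ A : ℕ) : ℕ∞) ≤ cong (Surface g) x) ∧
    (∀ N : Subgroup (MulAut (Surface g)), (∀ x, MulAut.conj x ∈ N) → N.index ≠ 0 →
      ¬ IsCong (Surface g) N →
        (∀ x : ℕ, subs (Surface g) x ≤ noncong (Surface g) (N.index * x) *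
          (((N.index * x) ^ Nat.log 2 N.index : ℕ) : ℕ∞)) ∧
        ∀ A : ℕ, ∃ x₀ : ℕ, ∀ x : ℕ, x₀ ≤ x → ((x ^ A : ℕ) : ℕ∞) ≤ noncong (Surface g) x) ∧
    ((∀ H : Subgroup (MulAut (Surface g)), H.FiniteIndex → (∀ x, MulAut.conj x ∈ H) →
        ∃ K : Subgroup (Surface g), K.Characteristic ∧ K.FiniteIndex ∧
          ∀ φ : MulAut (Surface g),
            (∃ h : Surface g, ∀ x : Surface g, φ x * (h * x * h⁻¹)⁻¹ ∈ K) → φ ∈ H) ↔
      ∃ A : ℕ, ∀ x₀ : ℕ, ∃ x : ℕ, x₀ ≤ x ∧ noncong (Surface g) x < ((x ^ A : ℕ) : ℕ∞)) := by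
  obtain ⟨m, rfl⟩ : ∃ m, g = m + 1 := ⟨g - 1, by omega⟩
  exact ⟨cong_superpoly (coordSurf m), fun _ hI hN hNP =>
    ⟨many_subs hI hN hNP, noncong_superpoly (coordSurf m) hI hN hNP⟩,
    growth_iff (coordSurf m)⟩

end Pool.Agent.Results.MP_59b15d_al.NoncongruenceGrowth
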