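import Pool.Agent.Q134.MG.Twist

set_option autoImplicit false

/-! Finite-index subgroups of the mapping class group `Mod_g` and their quotients which have
faithful linear or projective representations of small degree over commutative rings. -/

namespace Pool.Agent.Results.MP_59b15d_al.SmallQuotients

open Pool.Agent.H29R2.MG Pool.Agent.TH35.MG Pool.Agent.Q134.MG

universe u

/-- `H` has finite index in `Mod_g` and `N` is the kernel of a homomorphism from `H` to `GL_d(R)`,
`[Mod_g : H] d < 2 ^ m`, or of a homomorphism from `H` to `PGL_d(R)`, `[Mod_g : H] d² < 2 ^ m`. -/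
def SmallKernel (g m : ℕ) (R : Type u) [CommRing R] (H N : Subgroup (Mod g)) : Prop :=
  H.index ≠ 0 ∧ ∃ d : ℕ, 0 < d ∧
    ((H.index * d < 2 ^ m ∧
        ∃ φ : H →* Matrix.GeneralLinearGroup (Fin d) R, φ.ker.map H.subtype = N) ∨
      (H.index * (d * d) < 2 ^ m ∧
        ∃ φ : H →* Matrix.ProjGenLinGroup (Fin d) R, φ.ker.map H.subtype = N))

/-- `x` is conjugate to the Dehn twist `b_0 ↦ b_0 a_0`: it is a Dehn twist about a nonseparating
curve -/
def IsDehnTwist (g : ℕ) (x : Mod g) : Prop := ∃ T y : Mod g, IsTwist g T ∧ x = y * T * y⁻¹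

/-- the subgroup `L` of `N` contains a term of the derived series of `N` -/
def ContainsDerived {g : ℕ} (N L : Subgroup (Mod g)) : Prop :=
  ∃ s, (derivedSeries N s).map N.subtype ≤ L

theorem small {g m : ℕ} (hg : m + 5 ≤ g) {T : Mod g} (hT : IsTwist g T) :
    SmallUnip.{u} T (2 ^ m) m := fun K _ _ f hd => twist_unip hg hd T hT K f

theorem exists_rep {g m : ℕ} {R : Type u} [CommRing R] [Nontrivial R] {H N : Subgroup (Mod g)}
    (h : SmallKernel g m R H N) : ∃ (D : ℕ) (F : Mod g →* Matrix.GeneralLinearGroup (Fin D) R),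
      0 < D ∧ D < 2 ^ m ∧ F.ker ≤ N ∧ ∀ y : Mod g, (∀ x : Mod g, x * y * x⁻¹ ∈ N) → F y = 1 := by
  obtain ⟨hH, d, hd0, ⟨hd, φ, rfl⟩ | ⟨hd, φ, rfl⟩⟩ := h
  · obtain ⟨F, h1, h2⟩ := exists_ind' H hH hd0 φ
    exact ⟨_, F, Nat.mul_pos (Nat.pos_of_ne_zero hH) hd0, hd, h1, h2⟩
  · obtain ⟨ψ, hψ⟩ := exists_lin φ
    obtain ⟨F, h1, h2⟩ := exists_ind' H hH (Nat.mul_pos hd0 hd0) ψ
    rw [hψ] at h1 h2
    exact ⟨_, F, Nat.mul_pos (Nat.pos_of_ne_zero hH) (Nat.mul_pos hd0 hd0), hd, h1, h2⟩

theorem twists_mem {g m k : ℕ} (hg : m + 5 ≤ g) {R : Type u} [CommRing R] [Nontrivial R]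
    {H N : Subgroup (Mod g)} (h : SmallKernel g m R H N) (hk : IsUnit (k : R))
    (hN : ∀ x : Mod g, IsDehnTwist g x → x ^ k ∈ N) :
    ∀ x : Mod g, IsDehnTwist g x → x ∈ N := by
  rintro _ ⟨T, y, hT, rfl⟩
  obtain ⟨D, F, -, hD, h1, h2⟩ := exists_rep h
  have h3 : F T ^ k = 1 := by
    rw [← map_pow]
    apply h2
    intro z
    rw [← conj_pow]
    exact hN _ ⟨T, z, hT, rfl⟩
  have h4 := ring_one (small hg hT) hD F hk h3
  apply h1
  rw [MonoidHom.mem_ker, map_mul, map_mul, h4, mul_one, ← map_mul, mul_inv_cancel, map_one]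

theorem one_le {g m : ℕ} {R : Type u} [CommRing R] [Nontrivial R] {H N : Subgroup (Mod g)}
    (h : SmallKernel g m R H N) : 1 ≤ m := by
  obtain ⟨D, F, h0, hD, -, -⟩ := exists_rep h
  rcases Nat.eq_zero_or_pos m with rfl | hm
  · rw [pow_zero] at hD
    omega
  · exact hm

theorem twists_mem' {g m k : ℕ} (hg : m + 5 ≤ g) {R : Type u} [CommRing R] [Nontrivial R]
    {H N L : Subgroup (Mod g)} (h : SmallKernel g m R H N) (hL : ContainsDerived N L)
    (hk : IsUnit (k : R)) (hN : ∀ x : Mod g, IsDehnTwist g x → x ^ k ∈ N) :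
    ∀ x : Mod g, IsDehnTwist g x → x ∈ L := by
  have h1 := twists_mem hg h hk hN
  rintro _ ⟨T, y, hT, rfl⟩
  have hm := one_le h
  obtain ⟨s, hs⟩ := hL
  have h2 : Subgroup.normalClosure {T} ≤ N := nclosure_le fun c => h1 _ ⟨T, c, hT, rfl⟩
  exact hs (le_dser (twist_perfect (by omega) T hT) h2 s (conj_mem_nclosure T y))

theorem pow_mem_char {g m p e : ℕ} (hg : m + 5 ≤ g) {K : Type u} [Field K] [CharP K p]
    (hp : p.Prime) (he : m ≤ p ^ e) {H N : Subgroup (Mod g)} (h : SmallKernel g m K H N) :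
    ∀ x : Mod g, IsDehnTwist g x → x ^ p ^ e ∈ N := by
  rintro _ ⟨T, y, hT, rfl⟩
  obtain ⟨D, F, hD0, hD, h1, -⟩ := exists_rep h
  have : Nonempty (Fin D) := ⟨⟨0, hD0⟩⟩
  have : Fact p.Prime := ⟨hp⟩
  have h2 := small hg hT K D F hD
  have h3 : ((F T : Matrix (Fin D) (Fin D) K) - 1) ^ p ^ e = 0 := by
    rw [← Nat.sub_add_cancel he, pow_add, h2, mul_zero]
  have h4 : (F T) ^ p ^ e = 1 := by
    apply Units.ext
    rw [Units.val_pow_eq_pow_val, Units.val_one]
    have h5 := sub_pow_char_pow_of_commute (p := p) (n := e)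
      (h := Commute.one_right (F T : Matrix (Fin D) (Fin D) K))
    rw [h3, one_pow] at h5
    exact (sub_eq_zero.1 h5.symm)
  rw [conj_pow]
  apply h1
  rw [MonoidHom.mem_ker, map_mul, map_mul, map_pow, h4, mul_one, ← map_mul, mul_inv_cancel,
    map_one]

/-- Let `m + 5 ≤ g`.
(1) Let `R ≠ 0` be a commutative ring, let `N` be the kernel of a homomorphism from a subgroup `H`
of finite index in `Mod_g` to `GL_d(R)`, `[Mod_g : H] d < 2 ^ m`, or to `PGL_d(R)`,
`[Mod_g : H] d² < 2 ^ m`, and let `L` be a subgroup containing a term of the derived series of `N`.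
If `k` is invertible in `R` and `N` contains the `k`-th powers of the Dehn twists, then `L` contains
the Dehn twists.
(2) If all positive integers are invertible in `R` and `L` has finite index in `Mod_g`, then `L`
contains the Dehn twists.
(3) If `R = K` is a field of characteristic `p > 0` and `p ^ e ≥ m`, then `N` contains the
`p ^ e`-th powers of the Dehn twists.
(4) If `N` is such a kernel for fields `K`, `K'` of different characteristics, then `L` contains the
Dehn twists. -/
theorem result (g m : ℕ) (hg : m + 5 ≤ g) :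
    (∀ (R : Type u) [CommRing R] [Nontrivial R] (H N L : Subgroup (Mod g)),
      SmallKernel g m R H N → ContainsDerived N L →
      (∀ k : ℕ, IsUnit (k : R) → (∀ x, IsDehnTwist g x → x ^ k ∈ N) →
        ∀ x, IsDehnTwist g x → x ∈ L) ∧
      ((∀ k : ℕ, 0 < k → IsUnit (k : R)) → L ≤ N → L.FiniteIndex →
        ∀ x, IsDehnTwist g x → x ∈ L)) ∧
    (∀ (K : Type u) [Field K] (p e : ℕ) [CharP K p], p.Prime → m ≤ p ^ e →
      ∀ H N : Subgroup (Mod g), SmallKernel g m K H N → ∀ x, IsDehnTwist g x → x ^ p ^ e ∈ N) ∧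
    (∀ (K K' : Type u) [Field K] [Field K'] (p q : ℕ) [CharP K p] [CharP K' q], p ≠ q →
      ∀ H H' N L : Subgroup (Mod g), SmallKernel g m K H N → SmallKernel g m K' H' N →
        ContainsDerived N L → ∀ x, IsDehnTwist g x → x ∈ L) := by
  have main : ∀ (R : Type u) [CommRing R] [Nontrivial R] (H N L : Subgroup (Mod g)),
      SmallKernel g m R H N → ContainsDerived N L →
      (∀ k : ℕ, IsUnit (k : R) → (∀ x, IsDehnTwist g x → x ^ k ∈ N) →
        ∀ x, IsDehnTwist g x → x ∈ L) := fun R _ _ H N L h hL k hk hN =>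
    twists_mem' hg h hL hk hN
  have two : ∀ (K K' : Type u) [Field K] [Field K'] (p q : ℕ) [CharP K p] [CharP K' q], p ≠ q →
      p ≠ 0 → ∀ H H' N L : Subgroup (Mod g), SmallKernel g m K H N → SmallKernel g m K' H' N →
        ContainsDerived N L → ∀ x, IsDehnTwist g x → x ∈ L := by
    intro K K' _ _ p q _ _ hpq hp0 H H' N L h h' hL
    have hp : p.Prime := (CharP.char_is_prime_or_zero K p).resolve_right hp0
    have hm : m ≤ p ^ m := (Nat.lt_pow_self hp.one_lt).le
    refine main K' H' N L h' hL (p ^ m) ?_ (pow_mem_char hg hp hm h)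
    apply IsUnit.mk0
    intro h0
    rw [CharP.cast_eq_zero_iff K' q] at h0
    rcases CharP.char_is_prime_or_zero K' q with hq | hq
    · exact hpq ((Nat.prime_dvd_prime_iff_eq hq hp).1 (hq.dvd_of_dvd_pow h0)).symm
    · rw [hq, zero_dvd_iff] at h0
      exact hp0 (pow_eq_zero_iff (Nat.one_le_iff_ne_zero.1 (one_le h')) |>.1 h0)
  refine ⟨fun R _ _ H N L h hL => ⟨main R H N L h hL, ?_⟩, ?_, ?_⟩
  · intro hR hLN hfin
    have := hfin
    have : L.normalCore.FiniteIndex := inferInstance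
    refine main R H N L h hL L.normalCore.index (hR _ (Nat.pos_of_ne_zero
      Subgroup.FiniteIndex.index_ne_zero)) ?_
    intro x _
    apply hLN
    apply L.normalCore_le
    exact Subgroup.pow_index_mem _ x
  · intro K _ p e _ hp he H N h
    exact pow_mem_char hg hp he h
  · intro K K' _ _ p q _ _ hpq H H' N L h h' hL
    rcases eq_or_ne p 0 with hp | hp
    · have hq : q ≠ 0 := fun hq => hpq (hp.trans hq.symm)
      exact two K' K q p hpq.symm hq H' H N L h' h hL
    · exact two K K' p q hpq hp H H' N L h h' hL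

end Pool.Agent.Results.MP_59b15d_al.SmallQuotients
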